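import Pool.Agent.X32.Uni.UShort
import Pool.Agent.X32.Uni.Up
import Pool.Agent.X32.Uni.Box

/-!
Upper bound for the prime tuples, and the indices.
-/

set_option autoImplicit false

namespace Pool.Agent.X32.Idx

open Finset Filter
open Pool.Agent.X32.Uni

/-- the primes `P ≤ X` such that all the `P + h` are primes -/
def PT (H : Finset ℕ) (X : ℕ) : Finset ℕ := (Icc 1 X).filter (fun P => P.Prime ∧ ∀ h ∈ H, (P + h).Prime)

/-- powers of the logarithm -/
theorem log_pow_small (r : ℕ) (a : ℝ) (ha : 0 < a) : ∀ᶠ n : ℕ in atTop, Real.log n ^ r ≤ (n : ℝ) ^ a := by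
  have h := (isLittleO_log_rpow_rpow_atTop (r : ℝ) ha).bound one_pos
  have h2 := tendsto_natCast_atTop_atTop.eventually h
  filter_upwards [h2, eventually_ge_atTop 1] with n hn hn1
  have h3 : 0 ≤ Real.log n := Real.log_nonneg (by exact_mod_cast hn1)
  have h4 : 0 ≤ (n : ℝ) ^ a := by positivity
  rw [Real.rpow_natCast, Real.norm_of_nonneg (by positivity), Real.norm_of_nonneg h4, one_mul] at hn
  exact hn

theorem tuple_fin (k : ℕ) (hk : 1 ≤ k) (b : Fin k → ℕ) (hb : Function.Injective b) (hb0 : ∃ i, b i = 0) :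
    ∃ C : ℝ, 0 < C ∧ ∀ᶠ X : ℕ in atTop,
      (((Icc 1 X).filter (fun P => ∀ i, (P + b i).Prime)).card : ℝ) ≤ C * X / Real.log X ^ k := by
  classical
  by_cases hadm : AdmL (fun _ : Fin k => (1 : ℤ)) (fun i => (b i : ℤ))
  · obtain ⟨M, hM⟩ : ∃ M : ℕ, M = ∑ i, b i := ⟨_, rfl⟩
    have hbM : ∀ i, b i ≤ M := fun i => by
      rw [hM]
      exact single_le_sum (f := b) (fun _ _ => Nat.zero_le _) (mem_univ i)
    obtain ⟨C₁, hC₁, hup⟩ := VL_up (fun _ : Fin k => (1 : ℤ)) (fun i => (b i : ℤ)) hadm (M + 2) (by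
      intro p hp hpM
      apply omL_full _ _ hp
      · intro l hd
        have h1 : (p : ℤ) ≤ 1 := Int.le_of_dvd one_pos hd
        have h2 := hp.two_le
        omega
      · intro l m hlm hd
        have h1 : (1 : ℤ) * b m - 1 * b l = (b m : ℤ) - b l := by ring
        rw [h1] at hd
        have h2 : (b m : ℤ) - b l ≠ 0 := by
          intro h
          exact hlm (hb (by omega))
        have h3 := Int.le_of_dvd (abs_pos.2 h2) ((dvd_abs _ _).2 hd)
        have h4 : |(b m : ℤ) - b l| ≤ M := by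
          rw [abs_le]
          have := hbM m
          have := hbM l
          constructor <;> omega
        omega)
    obtain ⟨d, hd⟩ : ∃ d : ℕ, k = d + 1 := ⟨k - 1, by omega⟩
    obtain ⟨cV, hcV, hlow⟩ := V_low d
    rw [← hd] at hlow
    obtain ⟨KU, hKU, n₀, hz⟩ := upper_z k 3 0 (by norm_num) (1 / 2) cV (by norm_num) hcV
    have hdeg : ∀ i : Fin k, (lf (fun _ : Fin k => (1 : ℤ)) (fun i => (b i : ℤ)) i).natDegree = 1 := fun i =>
      lf_deg _ _ i one_ne_zero
    have hsum : ∑ i : Fin k, (lf (fun _ : Fin k => (1 : ℤ)) (fun i => (b i : ℤ)) i).natDegree ≤ k := by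
      rw [sum_congr rfl fun i _ => hdeg i]
      simp
    have hloc := loc_lf hadm
    refine ⟨KU * C₁ + 1, by positivity, ?_⟩
    filter_upwards [hup, eventually_ge_atTop n₀, eventually_ge_atTop 9, log_pow_small k (1 / 2) (by norm_num),
      ((tendsto_rpow_atTop (by norm_num : (0 : ℝ) < 1 / 6)).comp tendsto_natCast_atTop_atTop).eventually_gt_atTop 2]
      with X hX hX0 hX9 hXl hX6
    have hXr : (0 : ℝ) < X := by exact_mod_cast (by omega : 0 < X)
    have hX1 : (1 : ℝ) ≤ X := by exact_mod_cast (by omega : 1 ≤ X)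
    have hlog : 0 < Real.log X := Real.log_pos (by exact_mod_cast (by omega : 1 < X))
    have hVZ : VZ (lf (fun _ : Fin k => (1 : ℤ)) (fun i => (b i : ℤ))) 0 X =
        V (lf (fun _ : Fin k => (1 : ℤ)) (fun i => (b i : ℤ))) X := rfl
    have hz' := hz X hX0 k (lf (fun _ : Fin k => (1 : ℤ)) (fun i => (b i : ℤ))) hsum
      (fun p hp _ => hloc p hp) (by
        rw [hVZ]
        exact hlow k _ X (by omega) hloc hsum) (Nat.sqrt X) X le_rfl
      (by
        have h1 : Nat.sqrt X * Nat.sqrt X ≤ X := Nat.sqrt_le X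
        have h2 : 3 ≤ Nat.sqrt X := by rw [Nat.le_sqrt]; omega
        have h3 : (X : ℝ) ^ (1 / 2 : ℝ) < Nat.sqrt X + 1 := by
          rw [← Real.sqrt_eq_rpow, Real.sqrt_lt' (by positivity)]
          have := Nat.lt_succ_sqrt X
          rw [pow_two]
          exact_mod_cast this
        have h4 : (Nat.sqrt X : ℝ) * Nat.sqrt X ≤ X := by exact_mod_cast h1
        have h5 : (3 : ℝ) ≤ Nat.sqrt X := by exact_mod_cast h2
        nlinarith)
      (((Ioc (Nat.sqrt X) X)).filter (fun P => ∀ i, (P + b i).Prime)) (filter_subset _ _) (by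
        intro x hx i q hq _ hqd
        obtain ⟨hx1, hx2⟩ := mem_filter.1 hx
        have hx1 := mem_Ioc.1 hx1
        rw [lf_eval, one_mul] at hqd
        have h1 : q ∣ x + b i := by exact_mod_cast hqd
        have h2 : q = x + b i := (Nat.prime_dvd_prime_iff_eq hq (hx2 i)).1 h1
        have h3 : (Nat.sqrt X : ℝ) + 1 ≤ q := by
          rw [h2]
          exact_mod_cast (by omega : Nat.sqrt X + 1 ≤ x + b i)
        have h4 : (X : ℝ) ^ (1 / 2 : ℝ) < Nat.sqrt X + 1 := by
          rw [← Real.sqrt_eq_rpow, Real.sqrt_lt' (by positivity)]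
          have := Nat.lt_succ_sqrt X
          rw [pow_two]
          exact_mod_cast this
        have h5 : (X : ℝ) ^ (1 / ((3 : ℕ) : ℝ)) ≤ (X : ℝ) ^ (1 / 2 : ℝ) :=
          Real.rpow_le_rpow_of_exponent_le hX1 (by norm_num)
        linarith)
    rw [hVZ, V_lf] at hz'
    have hsplit : ((Icc 1 X).filter (fun P => ∀ i, (P + b i).Prime)).card ≤
        (Icc 1 (Nat.sqrt X)).card + (((Ioc (Nat.sqrt X) X)).filter (fun P => ∀ i, (P + b i).Prime)).card := by
      rw [← card_union_of_disjoint]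
      · apply card_le_card
        intro P hP
        obtain ⟨hP1, hP2⟩ := mem_filter.1 hP
        have hP1 := mem_Icc.1 hP1
        rw [mem_union, mem_filter, mem_Icc, mem_Ioc]
        by_cases h : P ≤ Nat.sqrt X
        · left; exact ⟨hP1.1, h⟩
        · right; exact ⟨⟨by omega, hP1.2⟩, hP2⟩
      · rw [disjoint_left]
        intro a h1 h2
        have h1 := mem_Icc.1 h1
        have h2 := mem_Ioc.1 (mem_filter.1 h2).1
        omega
    have hsplit' : (((Icc 1 X).filter (fun P => ∀ i, (P + b i).Prime)).card : ℝ) ≤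
        Nat.sqrt X + ((((Ioc (Nat.sqrt X) X)).filter (fun P => ∀ i, (P + b i).Prime)).card : ℝ) := by
      rw [Nat.card_Icc] at hsplit
      exact_mod_cast (by simpa using hsplit)
    have hs : (Nat.sqrt X : ℝ) ≤ X / Real.log X ^ k := by
      rw [le_div_iff₀ (by positivity)]
      have h1 : (Nat.sqrt X : ℝ) ≤ (X : ℝ) ^ (1 / 2 : ℝ) := by
        rw [← Real.sqrt_eq_rpow]
        apply Real.le_sqrt_of_sq_le
        have h1 : Nat.sqrt X * Nat.sqrt X ≤ X := Nat.sqrt_le X
        rw [pow_two]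
        exact_mod_cast h1
      calc (Nat.sqrt X : ℝ) * Real.log X ^ k ≤ (X : ℝ) ^ (1 / 2 : ℝ) * (X : ℝ) ^ (1 / 2 : ℝ) := by gcongr
        _ = X := by
            rw [← Real.rpow_add hXr]
            norm_num
    have hVn : 0 ≤ VL (fun _ : Fin k => (1 : ℤ)) (fun i => (b i : ℤ)) X := by
      rw [← V_lf]
      exact V_nonneg hloc X
    have h8 : KU * ((X : ℝ) - Nat.sqrt X) * VL (fun _ : Fin k => (1 : ℤ)) (fun i => (b i : ℤ)) X ≤
        KU * C₁ * (X / Real.log X ^ k) := by
      calc KU * ((X : ℝ) - Nat.sqrt X) * VL (fun _ : Fin k => (1 : ℤ)) (fun i => (b i : ℤ)) X ≤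
          KU * X * (C₁ / Real.log X ^ k) := by
            have : (0 : ℝ) ≤ Nat.sqrt X := Nat.cast_nonneg _
            gcongr
            linarith
        _ = KU * C₁ * (X / Real.log X ^ k) := by ring
    calc (((Icc 1 X).filter (fun P => ∀ i, (P + b i).Prime)).card : ℝ) ≤
        X / Real.log X ^ k + KU * C₁ * (X / Real.log X ^ k) := by linarith
      _ = (KU * C₁ + 1) * X / Real.log X ^ k := by ring
  · -- not admissible
    unfold AdmL at hadm
    push Not at hadm
    obtain ⟨p, hp, hpn⟩ := hadm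
    refine ⟨1, one_pos, ?_⟩
    filter_upwards [log_pow_small k (1 / 2) (by norm_num), eventually_ge_atTop 3,
      ((tendsto_rpow_atTop (by norm_num : (0 : ℝ) < 1 / 2)).comp tendsto_natCast_atTop_atTop).eventually_ge_atTop (p : ℝ)]
      with X hX hX3 hXp
    have hXr : (0 : ℝ) < X := by exact_mod_cast (by omega : 0 < X)
    have hlog : 0 < Real.log X := Real.log_pos (by exact_mod_cast (by omega : 1 < X))
    have h1 : (((Icc 1 X).filter (fun P => ∀ i, (P + b i).Prime)).card : ℝ) ≤ p := by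
      have : ((Icc 1 X).filter (fun P => ∀ i, (P + b i).Prime)).card ≤ (Icc 1 p).card := by
        apply card_le_card
        intro P hP
        obtain ⟨hP1, hP2⟩ := mem_filter.1 hP
        have hP1 := mem_Icc.1 hP1
        obtain ⟨i, hi⟩ := hpn P
        rw [one_mul] at hi
        have h2 : p ∣ P + b i := by exact_mod_cast hi
        have h3 : p = P + b i := (Nat.prime_dvd_prime_iff_eq hp (hP2 i)).1 h2
        exact mem_Icc.2 ⟨hP1.1, by omega⟩
      rw [Nat.card_Icc] at this
      exact_mod_cast (by simpa using this)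
    rw [one_mul, le_div_iff₀ (by positivity)]
    have h5 : (p : ℝ) ≤ (X : ℝ) ^ (1 / 2 : ℝ) := hXp
    calc (((Icc 1 X).filter (fun P => ∀ i, (P + b i).Prime)).card : ℝ) * Real.log X ^ k ≤
          (X : ℝ) ^ (1 / 2 : ℝ) * (X : ℝ) ^ (1 / 2 : ℝ) := by
            gcongr
            exact h1.trans h5
      _ = X := by
          rw [← Real.rpow_add hXr]
          norm_num

theorem tuple_up (H : Finset ℕ) (hH : 0 ∉ H) : ∃ C : ℝ, 0 < C ∧ ∀ᶠ X : ℕ in atTop,
    ((PT H X).card : ℝ) ≤ C * X / Real.log X ^ (H.card + 1) := by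
  classical
  have hcard : (insert 0 H).card = H.card + 1 := card_insert_of_notMem hH
  have hinj : Function.Injective (fun i : Fin (H.card + 1) => (insert 0 H).orderEmbOfFin hcard i) :=
    ((insert 0 H).orderEmbOfFin hcard).injective
  have hran : ∀ h, h ∈ insert 0 H ↔ ∃ i, (insert 0 H).orderEmbOfFin hcard i = h := by
    intro h
    have h1 := Finset.range_orderEmbOfFin (insert 0 H) hcard
    constructor
    · intro hh
      have : h ∈ Set.range ((insert 0 H).orderEmbOfFin hcard) := by rw [h1]; exact_mod_cast hh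
      exact this
    · rintro ⟨i, rfl⟩
      exact Finset.orderEmbOfFin_mem _ _ _
  obtain ⟨C, hC, h⟩ := tuple_fin (H.card + 1) (by omega) (fun i => (insert 0 H).orderEmbOfFin hcard i) hinj
    ((hran 0).1 (mem_insert_self _ _))
  refine ⟨C, hC, h.mono fun X hX => ?_⟩
  refine le_trans ?_ hX
  have : PT H X ⊆ (Icc 1 X).filter (fun P => ∀ i, (P + (insert 0 H).orderEmbOfFin hcard i).Prime) := by
    intro P hP
    obtain ⟨h1, h2, h3⟩ := mem_filter.1 hP
    refine mem_filter.2 ⟨h1, fun i => ?_⟩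
    have h4 := (hran ((insert 0 H).orderEmbOfFin hcard i)).2 ⟨i, rfl⟩
    rcases mem_insert.1 h4 with h5 | h5
    · rw [h5]; exact h2
    · exact h3 _ h5
  exact_mod_cast card_le_card this

end Pool.Agent.X32.Idx
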