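import Pool.Agent.X32.Idx.Mom
import Pool.Agent.X32.Idx.Tup

/-!
The multiples of a typical index.
-/

set_option autoImplicit false

namespace Pool.Agent.X32.Idx

open Finset Filter

/-- the `m`-th prime, `p 1 = 2` -/
noncomputable def pm (m : ℕ) : ℕ := Nat.nth Nat.Prime (m - 1)

theorem pm_le : ∀ᶠ Y : ℕ in atTop, ∀ m : ℕ, 1 ≤ m → m ≤ Y → pm m ≤ ⌈4 * (Y * Real.log Y)⌉₊ := by
  have h1 : ∀ᶠ X : ℕ in atTop, Real.log X ^ 1 ≤ (X : ℝ) ^ (1 / 2 : ℝ) := log_pow_small 1 (1 / 2) (by norm_num)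
  have h3 : Tendsto (fun Y : ℕ => ⌈4 * ((Y : ℝ) * Real.log Y)⌉₊) atTop atTop := by
    apply tendsto_nat_ceil_atTop.comp
    apply Tendsto.const_mul_atTop (by norm_num)
    exact (tendsto_natCast_atTop_atTop).atTop_mul_atTop₀ (Real.tendsto_log_atTop.comp tendsto_natCast_atTop_atTop)
  have h1' : ∀ᶠ X : ℕ in atTop, Real.log ((X : ℝ) + 1) ≤ (Real.log 2 - 1 / 2) * X := by
    have hc : (0 : ℝ) < Real.log 2 - 1 / 2 := by have := Real.log_two_gt_d9; linarith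
    have e1 := (isLittleO_log_rpow_atTop (show (0 : ℝ) < 1 by norm_num)).bound (show (0:ℝ) < (Real.log 2 - 1 / 2) / 2 by linarith)
    have e2 := (tendsto_natCast_atTop_atTop (R := ℝ)).eventually
      ((tendsto_atTop_add_const_right atTop (1 : ℝ) tendsto_id).eventually e1)
    filter_upwards [e2, eventually_ge_atTop 1] with X hX hX1
    have hX1' : (1 : ℝ) ≤ X := by exact_mod_cast hX1
    simp only [id, Real.rpow_one] at hX
    rw [Real.norm_of_nonneg (Real.log_nonneg (by linarith)), Real.norm_of_nonneg (by linarith)] at hX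
    nlinarith
  filter_upwards [h3.eventually h1', h1, eventually_ge_atTop 100, h3.eventually_ge_atTop 2] with Y hX1 hY hY1 hX2 m hm1 hmY
  obtain ⟨X, hX⟩ : ∃ X : ℕ, X = ⌈4 * ((Y : ℝ) * Real.log Y)⌉₊ := ⟨_, rfl⟩
  rw [← hX] at hX1 hX2 ⊢
  have hYr : (100 : ℝ) ≤ Y := by exact_mod_cast hY1
  have hlY : 0 < Real.log Y := Real.log_pos (by linarith)
  have hXl : 4 * ((Y : ℝ) * Real.log Y) ≤ X := by rw [hX]; exact Nat.le_ceil _
  have hXu : (X : ℝ) ≤ 4 * ((Y : ℝ) * Real.log Y) + 1 := by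
    rw [hX]
    exact (Nat.ceil_lt_add_one (by positivity)).le
  have hlog10 : (10 : ℝ) ≤ (Y : ℝ) ^ (1 / 2 : ℝ) := by
    rw [← Real.sqrt_eq_rpow]
    apply Real.le_sqrt_of_sq_le
    linarith
  have hhalf : (Y : ℝ) ^ (1 / 2 : ℝ) * (Y : ℝ) ^ (1 / 2 : ℝ) = Y := by
    rw [← Real.rpow_add (by linarith)]
    norm_num
  rw [pow_one] at hY
  have hXY : (X : ℝ) ≤ (Y : ℝ) ^ 2 := by
    have h5 : 4 * ((Y : ℝ) * Real.log Y) + 1 ≤ 5 * ((Y : ℝ) * (Y : ℝ) ^ (1 / 2 : ℝ)) := by nlinarith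
    have h6 : 5 * ((Y : ℝ) * (Y : ℝ) ^ (1 / 2 : ℝ)) ≤ (Y : ℝ) ^ 2 := by nlinarith
    linarith
  have hX0 : (0 : ℝ) < X := by exact_mod_cast (by omega : 0 < X)
  have hlX : 0 < Real.log X := Real.log_pos (by exact_mod_cast (by omega : 1 < X))
  have hlXY : Real.log X ≤ 2 * Real.log Y := by
    have := Real.log_le_log hX0 hXY
    rwa [Real.log_pow] at this
  have hpi := Chebyshev.pi_ge X
  have hYpi : (Y : ℝ) ≤ Nat.primeCounting X := by
    refine le_trans ?_ hpi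
    rw [le_div_iff₀ hlX]
    nlinarith
  have hYpi' : Y ≤ Nat.primeCounting X := by exact_mod_cast hYpi
  unfold pm
  have : Nat.nth Nat.Prime (m - 1) < X + 1 := by
    apply Nat.nth_lt_of_lt_count
    rw [Nat.primeCounting, Nat.primeCounting'] at hYpi'
    omega
  omega

open Classical in
/-- the indices -/
noncomputable def TI (H : Finset ℕ) (Y : ℕ) : Finset ℕ := (Icc 1 Y).filter (fun m => ∀ h ∈ H, (pm m + h).Prime)

theorem TI_up (H : Finset ℕ) (hH : 0 ∉ H) : ∃ C : ℝ, 0 < C ∧ ∀ᶠ Y : ℕ in atTop,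
    ((TI H Y).card : ℝ) ≤ C * Y / Real.log Y ^ H.card := by
  classical
  obtain ⟨C, hC, h⟩ := tuple_up H hH
  have h3 : Tendsto (fun Y : ℕ => ⌈4 * ((Y : ℝ) * Real.log Y)⌉₊) atTop atTop := by
    apply tendsto_nat_ceil_atTop.comp
    apply Tendsto.const_mul_atTop (by norm_num)
    exact (tendsto_natCast_atTop_atTop).atTop_mul_atTop₀ (Real.tendsto_log_atTop.comp tendsto_natCast_atTop_atTop)
  refine ⟨C * 5, by positivity, ?_⟩
  filter_upwards [pm_le, h3.eventually h, eventually_ge_atTop 3] with Y hp hY hY3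
  obtain ⟨X, hX⟩ : ∃ X : ℕ, X = ⌈4 * ((Y : ℝ) * Real.log Y)⌉₊ := ⟨_, rfl⟩
  rw [← hX] at hp hY
  have hYr : (3 : ℝ) ≤ Y := by exact_mod_cast hY3
  have hlY : 1 ≤ Real.log Y := by
    rw [Real.le_log_iff_exp_le (by linarith)]
    have := Real.exp_one_lt_d9
    linarith
  have hXl : 4 * ((Y : ℝ) * Real.log Y) ≤ X := by rw [hX]; exact Nat.le_ceil _
  have hXu : (X : ℝ) ≤ 4 * ((Y : ℝ) * Real.log Y) + 1 := by
    rw [hX]
    exact (Nat.ceil_lt_add_one (by positivity)).le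
  have hXY : (Y : ℝ) ≤ X := by nlinarith
  have hX0 : (0 : ℝ) < X := by linarith
  have hlXY : Real.log Y ≤ Real.log X := Real.log_le_log (by linarith) hXY
  have h1 : (TI H Y).card ≤ (PT H X).card := by
    apply card_le_card_of_injOn pm
    · intro m hm
      obtain ⟨hm1, hm2⟩ := mem_filter.1 (mem_coe.1 hm)
      have hm1 := mem_Icc.1 hm1
      have hpr : (pm m).Prime := Nat.nth_mem_of_infinite Nat.infinite_setOf_prime _
      exact mem_coe.2 (mem_filter.2 ⟨mem_Icc.2 ⟨hpr.pos, hp m hm1.1 hm1.2⟩, hpr, hm2⟩)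
    · intro a ha b hb hab
      have ha := (mem_Icc.1 (mem_filter.1 (mem_coe.1 ha)).1).1
      have hb := (mem_Icc.1 (mem_filter.1 (mem_coe.1 hb)).1).1
      have := Nat.nth_injective Nat.infinite_setOf_prime hab
      omega
  calc ((TI H Y).card : ℝ) ≤ (PT H X).card := by exact_mod_cast h1
    _ ≤ C * X / Real.log X ^ (H.card + 1) := hY
    _ ≤ C * X / Real.log Y ^ (H.card + 1) := by gcongr
    _ ≤ C * (5 * (Y * Real.log Y)) / Real.log Y ^ (H.card + 1) := by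
        gcongr
        nlinarith
    _ = C * 5 * Y / Real.log Y ^ H.card := by
        rw [pow_succ]
        field_simp

theorem harm_le (K : ℕ) : ∑ k ∈ Icc 1 K, 1 / (k : ℝ) ≤ 1 + Real.log K := by
  have h := harmonic_le_one_add_log K
  rw [harmonic_eq_sum_Icc] at h
  push_cast at h
  simpa [one_div] using h

/-- **Few members have a small multiple in the set.** -/
theorem main (T : ℕ → Prop) (r : ℕ) (C : ℝ) (hC : 0 < C)
    (hT : ∀ᶠ Y : ℕ in atTop, ∀ S : Finset ℕ, (∀ t ∈ S, 1 ≤ t ∧ t ≤ Y ∧ T t) → (S.card : ℝ) ≤ C * Y / Real.log Y ^ r)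
    (ε : ℝ) (hε : 0 < ε) : ∃ N₀ : ℕ, ∀ N : ℕ, N₀ ≤ N → ∀ K : ℕ, 1 ≤ K → ∀ S : Finset ℕ,
      (∀ n ∈ S, 1 ≤ n ∧ n ≤ N ∧ ∃ k, 1 ≤ k ∧ k ≤ K ∧ T (k * n)) →
      (S.card : ℝ) ≤ K * N / Real.log N ^ ((r : ℝ) - ε) := by
  classical
  obtain ⟨q, hq⟩ : ∃ q : ℕ, (r + 1 : ℝ) ≤ ε / 2 * q := by
    obtain ⟨q, hq⟩ := exists_nat_ge ((r + 1 : ℝ) / (ε / 2))
    refine ⟨q, ?_⟩
    rw [div_le_iff₀ (by positivity)] at hq
    linarith
  obtain ⟨η, hη⟩ : ∃ η : ℝ, η = 1 / ((r * (q + 1) + 1) * (q + 1)) := ⟨_, rfl⟩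
  have hη0 : 0 < η := by rw [hη]; positivity
  obtain ⟨C₁, hC₁, hdiv⟩ := H353.divisor_bound_real η hη0
  obtain ⟨C₂, hC₂⟩ : ∃ C₂ : ℝ, C₂ = ((C₁ + 1) ^ (q + 1) * 2) ^ (q + 1) := ⟨_, rfl⟩
  have hC₂0 : 0 < C₂ := by rw [hC₂]; positivity
  obtain ⟨Y₀, hY₀⟩ := eventually_atTop.1 hT
  have hlogt : Tendsto (fun N : ℕ => Real.log N) atTop atTop := Real.tendsto_log_atTop.comp tendsto_natCast_atTop_atTop
  have e1 : ∀ᶠ N : ℕ in atTop, C * Real.log N ^ (ε / 2) + C₂ ≤ Real.log N ^ ε := by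
    have e2 := ((tendsto_rpow_atTop (show 0 < ε / 2 by positivity)).comp hlogt).eventually_ge_atTop (C + C₂ + 1)
    filter_upwards [e2, hlogt.eventually_ge_atTop 1] with N hN hN1
    have h1 : Real.log N ^ ε = Real.log N ^ (ε / 2) * Real.log N ^ (ε / 2) := by
      rw [← Real.rpow_add (by linarith)]
      congr 1
      ring
    simp only [Function.comp] at hN
    rw [h1]
    nlinarith
  have e3 : ∀ᶠ N : ℕ in atTop, (r : ℝ) * Real.log (Real.log N) ≤ Real.log N ^ η := by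
    have h1 := (isLittleO_log_rpow_atTop hη0).bound (show (0 : ℝ) < 1 / (r + 1) by positivity)
    filter_upwards [hlogt.eventually h1, hlogt.eventually_ge_atTop 1] with N hN hN1
    rw [Real.norm_of_nonneg (Real.log_nonneg hN1), Real.norm_of_nonneg (by positivity), one_div,
      ← div_eq_inv_mul, le_div_iff₀ (by positivity)] at hN
    have := Real.log_nonneg hN1
    nlinarith
  obtain ⟨N₀, hN₀⟩ := eventually_atTop.1 (e1.and (e3.and ((hlogt.eventually_ge_atTop 1).and (eventually_ge_atTop (Y₀ + 3)))))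
  refine ⟨N₀, fun N hN K hK S hS => ?_⟩
  obtain ⟨hN1, hN2, hL, hNY⟩ := hN₀ N hN
  obtain ⟨L, hLL⟩ : ∃ L : ℝ, L = Real.log N := ⟨_, rfl⟩
  rw [← hLL] at hN1 hN2 hL ⊢
  have hL0 : 0 < L := by linarith
  have hNr : (0 : ℝ) < N := by exact_mod_cast (by omega : 0 < N)
  have hKr : (1 : ℝ) ≤ K := by exact_mod_cast hK
  have hSN : (S.card : ℝ) ≤ N := by
    have : S ⊆ Icc 1 N := fun n hn => mem_Icc.2 ⟨(hS n hn).1, (hS n hn).2.1⟩
    have := card_le_card this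
    rw [Nat.card_Icc] at this
    exact_mod_cast (by simpa using this)
  have hpw : 0 < L ^ ((r : ℝ) - ε) := by positivity
  rcases le_or_gt (L ^ ((r : ℝ) - ε)) K with hbig | hsmall
  · refine hSN.trans ?_
    rw [le_div_iff₀ hpw]
    nlinarith
  -- the main case
  have hKL : (K : ℝ) ≤ L ^ (r : ℝ) := hsmall.le.trans (Real.rpow_le_rpow_of_exponent_le hL (by linarith))
  have hcount := mult_count T N K
  have hSsub : S ⊆ (Icc 1 N).filter (fun n => ∃ k, 1 ≤ k ∧ k ≤ K ∧ T (k * n)) := fun n hn =>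
    mem_filter.2 ⟨mem_Icc.2 ⟨(hS n hn).1, (hS n hn).2.1⟩, (hS n hn).2.2⟩
  have hS1 : (S.card : ℝ) ≤ ∑ t ∈ (Icc 1 (K * N)).filter T, (dK K t : ℝ) := by
    refine le_trans ?_ hcount
    exact_mod_cast card_le_card hSsub
  have hB : ∀ k ∈ Icc 1 K, (k.divisors.card : ℝ) ≤ (C₁ + 1) * L ^ (r * η) := by
    intro k hk
    have hk := mem_Icc.1 hk
    have h1 := hdiv k (by omega)
    have h2 : (k : ℝ) ^ η ≤ L ^ (r * η) := by
      rw [Real.rpow_mul hL0.le]
      apply Real.rpow_le_rpow (Nat.cast_nonneg _) _ hη0.le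
      refine le_trans ?_ hKL
      exact_mod_cast hk.2
    have h3 : 0 ≤ (k : ℝ) ^ η := by positivity
    nlinarith
  have hB1 : 1 ≤ (C₁ + 1) * L ^ (r * η) := by
    have : 1 ≤ L ^ (r * η) := Real.one_le_rpow hL (by positivity)
    nlinarith
  have hHr : ∑ k ∈ Icc 1 K, 1 / (k : ℝ) ≤ 2 * L ^ η := by
    refine (harm_le K).trans ?_
    have h1 : Real.log K ≤ r * Real.log L := by
      have := Real.log_le_log (by linarith) hKL
      rwa [Real.log_rpow hL0] at this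
    have h2 : 1 ≤ L ^ η := Real.one_le_rpow hL hη0.le
    linarith
  have htr := trunc K (K * N) q ((C₁ + 1) * L ^ (r * η)) (2 * L ^ η) (L ^ (ε / 2)) hB1 hB hHr (by positivity) (by positivity)
    ((Icc 1 (K * N)).filter T) (filter_subset _ _)
  have hTc : ((((Icc 1 (K * N)).filter T).card : ℕ) : ℝ) ≤ C * (K * N) / L ^ r := by
    have h1 := hY₀ (K * N) (by
      have : N ≤ K * N := Nat.le_mul_of_pos_left N hK
      omega) ((Icc 1 (K * N)).filter T) (by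
      intro t ht
      obtain ⟨h1, h2⟩ := mem_filter.1 ht
      exact ⟨(mem_Icc.1 h1).1, (mem_Icc.1 h1).2, h2⟩)
    refine h1.trans ?_
    push_cast
    have h2 : L ≤ Real.log ((K : ℝ) * N) := by
      rw [hLL]
      apply Real.log_le_log hNr
      nlinarith
    gcongr
  have hA : (((C₁ + 1) * L ^ (r * η)) ^ (q + 1) * (2 * L ^ η)) ^ (q + 1) = C₂ * L := by
    have h1 : ((C₁ + 1) * L ^ (r * η)) ^ (q + 1) * (2 * L ^ η) =
        ((C₁ + 1) ^ (q + 1) * 2) * L ^ (r * η * (q + 1) + η) := by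
      rw [mul_pow, Real.rpow_add hL0, Real.rpow_mul hL0.le (r * η)]
      have : L ^ (r * η) ^ (1 : ℕ) = L ^ (r * η) := by rw [pow_one]
      have h9 : (L ^ (r * η)) ^ ((q : ℝ) + 1) = (L ^ (r * η)) ^ (q + 1) := by
        rw [← Real.rpow_natCast]
        push_cast
        rfl
      rw [h9]
      ring
    rw [h1, mul_pow, hC₂]
    congr 1
    rw [← Real.rpow_natCast, ← Real.rpow_mul hL0.le]
    have : (r * η * ((q : ℝ) + 1) + η) * ((q + 1 : ℕ) : ℝ) = 1 := by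
      push_cast
      rw [hη]
      field_simp
    rw [this, Real.rpow_one]
  rw [hA] at htr
  have hDq : L ^ (r + 1) ≤ (L ^ (ε / 2)) ^ q := by
    rw [← Real.rpow_natCast, ← Real.rpow_natCast, ← Real.rpow_mul hL0.le]
    apply Real.rpow_le_rpow_of_exponent_le hL
    push_cast
    exact hq
  have hsec : ((K * N : ℕ) : ℝ) * (C₂ * L) / (L ^ (ε / 2)) ^ q ≤ (K * N) * C₂ / L ^ r := by
    push_cast
    rw [div_le_div_iff₀ (by positivity) (by positivity)]
    calc (K : ℝ) * N * (C₂ * L) * L ^ r = (K * N * C₂) * L ^ (r + 1) := by ring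
      _ ≤ K * N * C₂ * (L ^ (ε / 2)) ^ q := by gcongr
  have hexp : L ^ ((r : ℝ) - ε) = L ^ r / L ^ ε := by
    rw [Real.rpow_sub hL0, Real.rpow_natCast]
  rw [hexp, div_div_eq_mul_div]
  calc (S.card : ℝ) ≤ L ^ (ε / 2) * (((Icc 1 (K * N)).filter T).card : ℕ) +
        ((K * N : ℕ) : ℝ) * (C₂ * L) / (L ^ (ε / 2)) ^ q := hS1.trans htr
    _ ≤ L ^ (ε / 2) * (C * (K * N) / L ^ r) + (K * N) * C₂ / L ^ r := by gcongr
    _ = (K * N) * (C * L ^ (ε / 2) + C₂) / L ^ r := by ring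
    _ ≤ K * N * L ^ ε / L ^ r := by gcongr

end Pool.Agent.X32.Idx
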