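import Mathlib
import Pool.Agent.H353R2.Z2

/-!
Moments of the number of the divisors up to `K`.
-/

set_option autoImplicit false

namespace Pool.Agent.X32.Idx

open Finset Filter

/-- the number of the divisors up to `K` -/
def dK (K t : ℕ) : ℕ := ((Icc 1 K).filter (fun k => k ∣ t)).card

theorem dK_mul (K k s : ℕ) (hk : 1 ≤ k) : dK K (k * s) ≤ k.divisors.card * dK K s := by
  unfold dK
  rw [← card_product]
  apply card_le_card_of_injOn (fun j => (Nat.gcd j k, j / Nat.gcd j k))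
  · intro j hj
    have hj := mem_filter.1 (mem_coe.1 hj)
    have hj1 := mem_Icc.1 hj.1
    have hg : 0 < Nat.gcd j k := Nat.gcd_pos_of_pos_right _ hk
    have hgj : Nat.gcd j k ∣ j := Nat.gcd_dvd_left _ _
    have hgk : Nat.gcd j k ∣ k := Nat.gcd_dvd_right _ _
    have h1 : 1 ≤ j / Nat.gcd j k := (Nat.one_le_div_iff hg).2 (Nat.le_of_dvd hj1.1 hgj)
    refine mem_coe.2 (mem_product.2 ⟨Nat.mem_divisors.2 ⟨hgk, by omega⟩, mem_filter.2 ⟨mem_Icc.2 ⟨h1, ?_⟩, ?_⟩⟩)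
    · exact (Nat.div_le_self _ _).trans hj1.2
    · have hcop : Nat.Coprime (j / Nat.gcd j k) (k / Nat.gcd j k) := Nat.coprime_div_gcd_div_gcd hg
      apply hcop.dvd_of_dvd_mul_left
      apply Nat.dvd_of_mul_dvd_mul_left hg
      rw [Nat.mul_div_cancel' hgj, ← mul_assoc, Nat.mul_div_cancel' hgk]
      exact hj.2
  · intro j _ j' _ he
    have h1 : Nat.gcd j k = Nat.gcd j' k := congrArg Prod.fst he
    have h2 : j / Nat.gcd j k = j' / Nat.gcd j' k := congrArg Prod.snd he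
    rw [← Nat.mul_div_cancel' (Nat.gcd_dvd_left j k), h2, h1, Nat.mul_div_cancel' (Nat.gcd_dvd_left j' k)]

/-- the multiples of `k` -/
theorem sum_mult (k Z : ℕ) (hk : 1 ≤ k) (F : ℕ → ℝ) :
    ∑ t ∈ (Icc 1 Z).filter (fun t => k ∣ t), F t = ∑ s ∈ Icc 1 (Z / k), F (k * s) := by
  symm
  apply sum_nbij (fun s => k * s)
  · intro s hs
    have hs := mem_Icc.1 hs
    refine mem_filter.2 ⟨mem_Icc.2 ⟨Nat.mul_pos hk hs.1, ?_⟩, dvd_mul_right _ _⟩
    calc k * s ≤ k * (Z / k) := Nat.mul_le_mul_left _ hs.2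
      _ ≤ Z := Nat.mul_div_le _ _
  · intro a _ b _ h
    exact Nat.eq_of_mul_eq_mul_left hk h
  · intro t ht
    obtain ⟨ht1, s, hs⟩ := mem_filter.1 (mem_coe.1 ht)
    have ht1 := mem_Icc.1 ht1
    refine ⟨s, mem_coe.2 (mem_Icc.2 ⟨?_, ?_⟩), hs.symm⟩
    · by_contra h0
      have : s = 0 := by omega
      rw [this] at hs
      omega
    · rw [Nat.le_div_iff_mul_le hk, mul_comm, ← hs]
      exact ht1.2
  · intro s _
    rfl

theorem moment (K : ℕ) (B Hr : ℝ) (hB1 : 1 ≤ B) (hB : ∀ k ∈ Icc 1 K, (k.divisors.card : ℝ) ≤ B)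
    (hHr : ∑ k ∈ Icc 1 K, 1 / (k : ℝ) ≤ Hr) (hHr0 : 0 ≤ Hr) (q : ℕ) :
    ∀ Z : ℕ, ∑ t ∈ Icc 1 Z, (dK K t : ℝ) ^ q ≤ Z * (B ^ q * Hr) ^ q := by
  classical
  induction q with
  | zero =>
    intro Z
    simp
  | succ q ih =>
    intro Z
    have e1 : ∀ t, (dK K t : ℝ) ^ (q + 1) = ∑ k ∈ Icc 1 K, if k ∣ t then (dK K t : ℝ) ^ q else 0 := by
      intro t
      rw [← sum_filter, sum_const, nsmul_eq_mul, pow_succ, mul_comm]
      rfl
    simp only [e1]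
    rw [sum_comm]
    have hB0 : 0 ≤ B := by linarith
    have e2 : ∀ k ∈ Icc 1 K, ∑ t ∈ Icc 1 Z, (if k ∣ t then (dK K t : ℝ) ^ q else 0) ≤
        (1 / (k : ℝ)) * (Z * (B ^ q * Hr) ^ q * B ^ q) := by
      intro k hk
      have hk1 := (mem_Icc.1 hk).1
      have hk0 : (0 : ℝ) < k := by exact_mod_cast hk1
      rw [← sum_filter, sum_mult k Z hk1]
      calc ∑ s ∈ Icc 1 (Z / k), (dK K (k * s) : ℝ) ^ q ≤ ∑ s ∈ Icc 1 (Z / k), B ^ q * (dK K s : ℝ) ^ q := by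
            apply sum_le_sum
            intro s _
            rw [← mul_pow]
            apply pow_le_pow_left₀ (Nat.cast_nonneg _)
            have h1 : ((dK K (k * s) : ℕ) : ℝ) ≤ ((k.divisors.card * dK K s : ℕ) : ℝ) := by
              exact_mod_cast dK_mul K k s hk1
            push_cast at h1
            exact h1.trans (mul_le_mul_of_nonneg_right (hB k hk) (Nat.cast_nonneg _))
        _ = B ^ q * ∑ s ∈ Icc 1 (Z / k), (dK K s : ℝ) ^ q := by rw [mul_sum]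
        _ ≤ B ^ q * (((Z / k : ℕ) : ℝ) * (B ^ q * Hr) ^ q) := by
            apply mul_le_mul_of_nonneg_left (ih _) (by positivity)
        _ ≤ B ^ q * ((Z / k : ℝ) * (B ^ q * Hr) ^ q) := by
            have : ((Z / k : ℕ) : ℝ) ≤ (Z : ℝ) / k := Nat.cast_div_le
            gcongr
        _ = (1 / (k : ℝ)) * (Z * (B ^ q * Hr) ^ q * B ^ q) := by ring
    refine (sum_le_sum e2).trans ?_
    rw [← sum_mul]
    have hZ : (0 : ℝ) ≤ Z := Nat.cast_nonneg Z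
    calc (∑ k ∈ Icc 1 K, 1 / (k : ℝ)) * (Z * (B ^ q * Hr) ^ q * B ^ q) ≤ Hr * (Z * (B ^ q * Hr) ^ q * B ^ q) := by
          gcongr
      _ = Z * (B ^ (q * q + q) * Hr ^ (q + 1)) := by ring
      _ ≤ Z * (B ^ ((q + 1) * (q + 1)) * Hr ^ (q + 1)) := by
          gcongr
          nlinarith
      _ = Z * (B ^ (q + 1) * Hr) ^ (q + 1) := by ring

/-- few elements of a sparse set have many divisors up to `K` -/
theorem trunc (K Z q : ℕ) (B Hr D : ℝ) (hB1 : 1 ≤ B) (hB : ∀ k ∈ Icc 1 K, (k.divisors.card : ℝ) ≤ B)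
    (hHr : ∑ k ∈ Icc 1 K, 1 / (k : ℝ) ≤ Hr) (hHr0 : 0 ≤ Hr) (hD : 0 < D) (T : Finset ℕ) (hT : T ⊆ Icc 1 Z) :
    ∑ t ∈ T, (dK K t : ℝ) ≤ D * T.card + Z * (B ^ (q + 1) * Hr) ^ (q + 1) / D ^ q := by
  classical
  have h1 : ∀ t ∈ T, (dK K t : ℝ) ≤ D + (dK K t : ℝ) ^ (q + 1) / D ^ q := by
    intro t _
    have h0 : (0 : ℝ) ≤ dK K t := Nat.cast_nonneg _
    rcases le_or_gt (dK K t : ℝ) D with h | h
    · have : 0 ≤ (dK K t : ℝ) ^ (q + 1) / D ^ q := by positivity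
      linarith
    · have h2 : (dK K t : ℝ) ≤ (dK K t : ℝ) ^ (q + 1) / D ^ q := by
        rw [le_div_iff₀ (by positivity), pow_succ, mul_comm]
        exact mul_le_mul_of_nonneg_right (pow_le_pow_left₀ hD.le h.le q) h0
      linarith
  refine (sum_le_sum h1).trans ?_
  rw [sum_add_distrib, sum_const, nsmul_eq_mul, mul_comm (T.card : ℝ) D]
  have h2 : ∑ t ∈ T, (dK K t : ℝ) ^ (q + 1) / D ^ q ≤ ∑ t ∈ Icc 1 Z, (dK K t : ℝ) ^ (q + 1) / D ^ q :=
    sum_le_sum_of_subset_of_nonneg hT fun _ _ _ => by positivity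
  rw [← sum_div (Icc 1 Z)] at h2
  have h3 := div_le_div_of_nonneg_right (moment K B Hr hB1 hB hHr hHr0 (q + 1) Z) (pow_nonneg hD.le q)
  linarith

open Classical in
/-- the members with a multiple in the set -/
theorem mult_count (P : ℕ → Prop) (N K : ℕ) :
    (((Icc 1 N).filter (fun n => ∃ k, 1 ≤ k ∧ k ≤ K ∧ P (k * n))).card : ℝ) ≤
      ∑ t ∈ (Icc 1 (K * N)).filter P, (dK K t : ℝ) := by
  classical
  have h1 : (Icc 1 N).filter (fun n => ∃ k, 1 ≤ k ∧ k ≤ K ∧ P (k * n)) ⊆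
      (Icc 1 K).biUnion (fun k => (Icc 1 N).filter (fun n => P (k * n))) := by
    intro n hn
    obtain ⟨hn1, k, hk1, hkK, hP⟩ := mem_filter.1 hn
    exact mem_biUnion.2 ⟨k, mem_Icc.2 ⟨hk1, hkK⟩, mem_filter.2 ⟨hn1, hP⟩⟩
  have h2 : ∀ k ∈ Icc 1 K, ((Icc 1 N).filter (fun n => P (k * n))).card ≤
      (((Icc 1 (K * N)).filter P).filter (fun t => k ∣ t)).card := by
    intro k hk
    have hk := mem_Icc.1 hk
    apply card_le_card_of_injOn (fun n => k * n)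
    · intro n hn
      obtain ⟨hn1, hP⟩ := mem_filter.1 (mem_coe.1 hn)
      have hn1 := mem_Icc.1 hn1
      exact mem_coe.2 (mem_filter.2 ⟨mem_filter.2 ⟨mem_Icc.2 ⟨Nat.mul_pos hk.1 hn1.1, Nat.mul_le_mul hk.2 hn1.2⟩, hP⟩,
        dvd_mul_right _ _⟩)
    · intro a _ b _ h
      exact Nat.eq_of_mul_eq_mul_left hk.1 h
  have h3 : ((Icc 1 N).filter (fun n => ∃ k, 1 ≤ k ∧ k ≤ K ∧ P (k * n))).card ≤
      ∑ t ∈ (Icc 1 (K * N)).filter P, dK K t := by
    refine (card_le_card h1).trans (card_biUnion_le.trans ((sum_le_sum h2).trans (le_of_eq ?_)))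
    simp only [dK, card_filter _ (Icc 1 K)]
    rw [sum_comm]
    apply sum_congr rfl
    intro k _
    rw [card_filter]
  exact_mod_cast h3

end Pool.Agent.X32.Idx
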